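import Pool.Agent.H92.SG.Stmts

/-! # Board sg7: module MKB (a saddle on a marked braid) -/

set_option autoImplicit false

namespace Pool.Agent.H33.SG

open Pool.Agent.H92.SG

theorem sh_mem {n : ℕ} {x : B} (hx : x ∈ Bn n) : sh x ∈ Bn (n + 1) := by
  refine Bn_induction (p := fun x => sh x ∈ Bn (n + 1)) ?_ ?_ ?_ ?_ hx
  · rw [map_one]
    exact (Bn (n + 1)).one_mem
  · intro i hi
    rw [sh_σ]
    exact σ_mem_Bn (by omega)
  · intro x _ y _ h1 h2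
    rw [map_mul]
    exact (Bn (n + 1)).mul_mem h1 h2
  · intro x _ h1
    rw [map_inv]
    exact (Bn (n + 1)).inv_mem h1

theorem sh_band {n : ℕ} {x : B} (hx : IsBand n x) : IsBand (n + 1) (sh x) := by
  obtain ⟨w, hw, i, hi, h | h⟩ := hx
  · refine ⟨sh w, sh_mem hw, i + 1, by omega, Or.inl ?_⟩
    rw [h, map_mul, map_mul, map_inv, sh_σ]
  · refine ⟨sh w, sh_mem hw, i + 1, by omega, Or.inr ?_⟩
    rw [h, map_mul, map_mul, map_inv, map_inv, sh_σ]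

theorem conj_band {n : ℕ} {x g : B} (hg : g ∈ Bn n) (hx : IsBand n x) :
    IsBand n (g⁻¹ * x * g) := by
  obtain ⟨w, hw, i, hi, h | h⟩ := hx
  · refine ⟨g⁻¹ * w, (Bn n).mul_mem ((Bn n).inv_mem hg) hw, i, hi, Or.inl ?_⟩
    rw [h]
    group
  · refine ⟨g⁻¹ * w, (Bn n).mul_mem ((Bn n).inv_mem hg) hw, i, hi, Or.inr ?_⟩
    rw [h]
    group

theorem hp_mem {N p : ℕ} (hp' : p < N) : hp p ∈ Bn (N + 3) := by
  induction p with
  | zero => exact (Bn (N + 3)).one_mem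
  | succ p ih =>
    exact (Bn (N + 3)).mul_mem (ih (by omega)) (σ_mem_Bn (by omega))

theorem β77_mem : β77 ∈ Bn 4 := by
  have h0 : σ 0 ∈ Bn 4 := σ_mem_Bn (by omega)
  have h1 : σ 1 ∈ Bn 4 := σ_mem_Bn (by omega)
  have h2 : σ 2 ∈ Bn 4 := σ_mem_Bn (by omega)
  have h0' := (Bn 4).inv_mem h0
  have h2' := (Bn 4).inv_mem h2
  unfold β77
  exact (Bn 4).mul_mem ((Bn 4).mul_mem ((Bn 4).mul_mem ((Bn 4).mul_mem ((Bn 4).mul_mem
    ((Bn 4).mul_mem h0' h1) h0') h1) h2') h1) h2'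

theorem MKB_thm (hSB : SurfBandStmt) : MkBandStmt := by
  intro N W x p e hW hp' hx h
  unfold SurfMk at h ⊢
  have hK : (hp p)⁻¹ * β77 * hp p ∈ Bn (N + 3) :=
    (Bn (N + 3)).mul_mem ((Bn (N + 3)).mul_mem ((Bn (N + 3)).inv_mem (hp_mem hp'))
      (Bn_mono (by omega) β77_mem)) (hp_mem hp')
  refine hSB (N + 3) _ (((hp p)⁻¹ * β77 * hp p)⁻¹ * (sh^[3]) x * ((hp p)⁻¹ * β77 * hp p)) e
    (conj_band hK (sh_band (sh_band (sh_band hx)))) ?_
  have e1 : (sh^[3]) (W * x) = (sh^[3]) W * (sh^[3]) x := by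
    show sh (sh (sh (W * x))) = sh (sh (sh W)) * sh (sh (sh x))
    rw [map_mul, map_mul, map_mul]
  rw [e1] at h
  have e2 : (sh^[3]) W * ((hp p)⁻¹ * β77 * hp p) *
      (((hp p)⁻¹ * β77 * hp p)⁻¹ * (sh^[3]) x * ((hp p)⁻¹ * β77 * hp p)) =
      (sh^[3]) W * (sh^[3]) x * ((hp p)⁻¹ * β77 * hp p) := by
    group
  rw [e2]
  exact h

end Pool.Agent.H33.SG
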