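import Pool.Agent.H92.SG.Stmts

/-! # Board sg7: module TW (counting) -/

set_option autoImplicit false

namespace Pool.Agent.H33.SG

open Pool.Agent.H92.SG PowerSeries

theorem TW_thm (hABST : AbsTStmt) (hTWT : TwTStmt) (hTWS : TwSStmt) (hBLKC : BlkColStmt) :
    TwStmt := by
  intro n b g l hl hprod hlen hconn k z a ha hz hpat
  obtain ⟨S, hS, hT⟩ := hABST k (3 * n + 1) b (nfold 4 β77 n) l a (by omega) (hBLKC.1 n) hl hprod
    hconn ha
  obtain ⟨T, hT1, hT2⟩ := hTWT n k z a hz hpat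
  have h1 := hT T hT2
  have h2 := hTWS n k z a hz hpat S hS
  omega

end Pool.Agent.H33.SG
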