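import Pool.Agent.H92.SG.Stmts

/-! # Board sg7: module TWB (basic properties of the twisted action, II) -/

set_option autoImplicit false

namespace Pool.Agent.H33.SG

open Pool.Agent.H92.SG

section
variable {R : Type} [CommRing R] {m : ℕ} (t : Rˣ) (e : AddChar (ZMod m) R)

theorem dih_inv (A : Type) [CommRing A] (x : B) (a : ℕ → A) : dih A x (dih A x⁻¹ a) = a := by
  rw [← LinearEquiv.mul_apply, ← map_mul, mul_inv_cancel, map_one]
  rfl

theorem dih_inv' (A : Type) [CommRing A] (x : B) (a : ℕ → A) : dih A x⁻¹ (dih A x a) = a := by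
  rw [← LinearEquiv.mul_apply, ← map_mul, inv_mul_cancel, map_one]
  rfl

theorem tw_inv (hA : TwA) (x : B) (a : ℕ → ZMod m) (s : ℕ → V2 R) :
    tw t e x (dih _ x⁻¹ a) (tw t e x⁻¹ a s) = s := by
  rw [← hA.mul, mul_inv_cancel, hA.one]

theorem tw_inv' (hA : TwA) (x : B) (a : ℕ → ZMod m) (s : ℕ → V2 R) :
    tw t e x⁻¹ (dih _ x a) (tw t e x a s) = s := by
  rw [← hA.mul, inv_mul_cancel, hA.one]

theorem sum_two {V : Type} [AddCommGroup V] (f g : ℕ → V) (i : ℕ)
    (h1 : ∀ j, j ≠ i → j ≠ i + 1 → f j = g j) (h2 : f i + f (i + 1) = g i + g (i + 1)) :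
    ∀ N, i + 1 < N → ∑ j ∈ Finset.range N, f j = ∑ j ∈ Finset.range N, g j := by
  intro N
  induction N with
  | zero => intro h; omega
  | succ N ih =>
    intro h
    rcases Nat.lt_or_ge (i + 1) N with h3 | h3
    · rw [Finset.sum_range_succ, Finset.sum_range_succ, ih h3, h1 N (by omega) (by omega)]
    · have h4 : N = i + 1 := by omega
      subst h4
      rw [Finset.sum_range_succ, Finset.sum_range_succ, Finset.sum_range_succ,
        Finset.sum_range_succ, add_assoc, add_assoc, h2]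
      congr 1
      refine Finset.sum_congr rfl fun j hj => ?_
      rw [Finset.mem_range] at hj
      exact h1 j (by omega) (by omega)

end

theorem loc1 (hA : TwA) (R : Type) [CommRing R] (m : ℕ) (t : Rˣ) (e : AddChar (ZMod m) R)
    (N : ℕ) (x : B) (hx : x ∈ Bn N) : ∀ (a : ℕ → ZMod m) (s : ℕ → V2 R) (i : ℕ), N ≤ i →
      tw t e x a s i = s i := by
  refine Bn_induction (p := fun x => ∀ (a : ℕ → ZMod m) (s : ℕ → V2 R) (i : ℕ), N ≤ i →
      tw t e x a s i = s i) ?_ ?_ ?_ ?_ hx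
  · intro a s i _
    rw [hA.one]
  · intro i hi a s j hj
    rw [hA.σ_apply]
    show (if j = i then _ else if j = i + 1 then _ else s j) = s j
    rw [if_neg (by omega), if_neg (by omega)]
  · intro x _ y _ h1 h2 a s i hi
    rw [hA.mul, h1 _ _ i hi, h2 _ _ i hi]
  · intro x _ h1 a s i hi
    have h2 := h1 (dih _ x⁻¹ a) (tw t e x⁻¹ a s) i hi
    rw [tw_inv t e hA] at h2
    exact h2.symm

theorem loc2 (hA : TwA) (hDB : DihB) (R : Type) [CommRing R] (m : ℕ) (t : Rˣ)
    (e : AddChar (ZMod m) R) (N : ℕ) (x : B) (hx : x ∈ Bn N) :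
    ∀ (a a' : ℕ → ZMod m) (s s' : ℕ → V2 R), (∀ i < N, a i = a' i) →
      (∀ i < N, s i = s' i) → ∀ i < N, tw t e x a s i = tw t e x a' s' i := by
  have key : (∀ (a a' : ℕ → ZMod m) (s s' : ℕ → V2 R), (∀ i < N, a i = a' i) →
      (∀ i < N, s i = s' i) → ∀ i < N, tw t e x a s i = tw t e x a' s' i) ∧
      (∀ (a a' : ℕ → ZMod m) (s s' : ℕ → V2 R), (∀ i < N, a i = a' i) →
      (∀ i < N, s i = s' i) → ∀ i < N, tw t e x⁻¹ a s i = tw t e x⁻¹ a' s' i) := by
    refine Bn_induction (p := fun x => (∀ (a a' : ℕ → ZMod m) (s s' : ℕ → V2 R),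
      (∀ i < N, a i = a' i) → (∀ i < N, s i = s' i) → ∀ i < N, tw t e x a s i = tw t e x a' s' i) ∧
      (∀ (a a' : ℕ → ZMod m) (s s' : ℕ → V2 R), (∀ i < N, a i = a' i) →
      (∀ i < N, s i = s' i) → ∀ i < N, tw t e x⁻¹ a s i = tw t e x⁻¹ a' s' i)) ?_ ?_ ?_ ?_ hx
    · refine ⟨?_, ?_⟩
      · intro a a' s s' _ h2 i hi
        rw [hA.one, hA.one, h2 i hi]
      · intro a a' s s' _ h2 i hi
        rw [inv_one, hA.one, hA.one, h2 i hi]
    · intro i hi
      refine ⟨?_, ?_⟩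
      · intro a a' s s' h1 h2 j hj
        rw [hA.σ_apply, hA.σ_apply]
        simp only [h1 (i + 1) hi, h2 (i + 1) hi, h2 i (by omega), h2 j hj]
      · intro a a' s s' h1 h2 j hj
        rw [hA.σ_inv_apply, hA.σ_inv_apply]
        simp only [h1 i (by omega), h2 (i + 1) hi, h2 i (by omega), h2 j hj]
    · intro x hx y hy h1 h2
      refine ⟨?_, ?_⟩
      · intro a a' s s' h3 h4 i hi
        rw [hA.mul, hA.mul]
        exact h1.1 _ _ _ _ (hDB.loc2 _ N y hy a a' h3) (h2.1 a a' s s' h3 h4) i hi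
      · intro a a' s s' h3 h4 i hi
        rw [mul_inv_rev, hA.mul, hA.mul]
        exact h2.2 _ _ _ _ (hDB.loc2 _ N x⁻¹ ((Bn N).inv_mem hx) a a' h3)
          (h1.2 a a' s s' h3 h4) i hi
    · intro x _ h1
      refine ⟨h1.2, ?_⟩
      rw [inv_inv]
      exact h1.1
  exact key.1

theorem sum' (hA : TwA) (R : Type) [CommRing R] (m : ℕ) (t : Rˣ) (e : AddChar (ZMod m) R)
    (N : ℕ) (x : B) (hx : x ∈ Bn N) : ∀ (a : ℕ → ZMod m) (s : ℕ → V2 R),
      ∑ i ∈ Finset.range N, tw t e x a s i = ∑ i ∈ Finset.range N, s i := by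
  refine Bn_induction (p := fun x => ∀ (a : ℕ → ZMod m) (s : ℕ → V2 R),
      ∑ i ∈ Finset.range N, tw t e x a s i = ∑ i ∈ Finset.range N, s i) ?_ ?_ ?_ ?_ hx
  · intro a s
    rw [hA.one]
  · intro i hi a s
    rw [hA.σ_apply]
    refine sum_two _ _ i ?_ ?_ N hi
    · intro j h1 h2
      show (if j = i then _ else if j = i + 1 then _ else s j) = s j
      rw [if_neg h1, if_neg h2]
    · show (if i = i then _ else if i = i + 1 then _ else s i) +
        (if i + 1 = i then _ else if i + 1 = i + 1 then _ else s (i + 1)) = _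
      rw [if_pos rfl, if_neg (by omega), if_pos rfl]
      abel
  · intro x _ y _ h1 h2 a s
    rw [hA.mul, h1, h2]
  · intro x _ h1 a s
    have h2 := h1 (dih _ x⁻¹ a) (tw t e x⁻¹ a s)
    rw [tw_inv t e hA] at h2
    exact h2.symm

theorem unit_inv {R R' : Type} [CommRing R] [CommRing R'] (f : R →+* R') (t : Rˣ) (t' : R'ˣ)
    (h : f t = t') : f ((t⁻¹ : Rˣ) : R) = ((t'⁻¹ : R'ˣ) : R') := by
  have h1 : Units.map (f : R →* R') t = t' := Units.ext h
  rw [← h1, ← map_inv]
  rfl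

theorem nat' (hA : TwA) (R R' : Type) [CommRing R] [CommRing R'] (f : R →+* R') (m : ℕ)
    (t : Rˣ) (t' : R'ˣ) (e : AddChar (ZMod m) R) (e' : AddChar (ZMod m) R') (ht : f t = t')
    (he : ∀ a, f (e a) = e' a) (x : B) : ∀ (a : ℕ → ZMod m) (s : ℕ → V2 R),
      tw t' e' x a (fun i p => f (s i p)) = fun i p => f (tw t e x a s i p) := by
  have hSv : ∀ (a : ZMod m) (v : V2 R) (p : Fin 2),
      Sv e' a (fun p => f (v p)) p = f (Sv e a v p) := by
    intro a v p
    unfold Sv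
    fin_cases p
    · simp [he]
    · simp [he]
  refine B_induction (p := fun x => ∀ (a : ℕ → ZMod m) (s : ℕ → V2 R),
      tw t' e' x a (fun i p => f (s i p)) = fun i p => f (tw t e x a s i p)) ?_ ?_ ?_ ?_ x
  · intro a s
    rw [hA.one, hA.one]
  · intro i a s
    rw [hA.σ_apply, hA.σ_apply]
    funext j p
    show (if j = i then _ else if j = i + 1 then _ else fun p => f (s j p) : V2 R') p =
      f ((if j = i then _ else if j = i + 1 then _ else s j : V2 R) p)
    split_ifs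
    · simp only [Pi.add_apply, Pi.sub_apply, Pi.smul_apply, smul_eq_mul, map_add, map_sub,
        map_mul, hSv, unit_inv f t t' ht]
    · simp only [Pi.smul_apply, smul_eq_mul, map_mul, hSv, unit_inv f t t' ht]
    · rfl
  · intro x y h1 h2 a s
    rw [hA.mul, hA.mul, h2, h1]
  · intro x h1 a s
    have h2 := h1 (dih _ x⁻¹ a) (tw t e x⁻¹ a s)
    rw [tw_inv t e hA] at h2
    rw [← h2]
    have h3 := tw_inv' t' e' hA x (dih _ x⁻¹ a) (fun i p => f (tw t e x⁻¹ a s i p))
    rw [dih_inv] at h3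
    exact h3

theorem sh0 (hA : TwA) (R : Type) [CommRing R] (m : ℕ) (t : Rˣ) (e : AddChar (ZMod m) R)
    (x : B) : ∀ (a : ℕ → ZMod m) (s : ℕ → V2 R), tw t e (sh x) a s 0 = s 0 := by
  refine B_induction (p := fun x => ∀ (a : ℕ → ZMod m) (s : ℕ → V2 R),
    tw t e (sh x) a s 0 = s 0) ?_ ?_ ?_ ?_ x
  · intro a s
    rw [map_one, hA.one]
  · intro i a s
    rw [sh_σ, hA.σ_apply]
    show (if 0 = i + 1 then _ else if 0 = i + 1 + 1 then _ else s 0) = s 0
    rw [if_neg (by omega), if_neg (by omega)]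
  · intro x y h1 h2 a s
    rw [map_mul, hA.mul, h1, h2]
  · intro x h1 a s
    have h2 := h1 (dih _ (sh x)⁻¹ a) (tw t e (sh x)⁻¹ a s)
    rw [tw_inv t e hA] at h2
    rw [map_inv]
    exact h2.symm

theorem sh1 (hA : TwA) (hDA : DihA) (R : Type) [CommRing R] (m : ℕ) (t : Rˣ)
    (e : AddChar (ZMod m) R) (x : B) : ∀ (a : ℕ → ZMod m) (s : ℕ → V2 R),
      (fun i => tw t e (sh x) a s (i + 1)) =
        tw t e x (fun j => a (j + 1)) (fun j => s (j + 1)) := by
  refine B_induction (p := fun x => ∀ (a : ℕ → ZMod m) (s : ℕ → V2 R),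
      (fun i => tw t e (sh x) a s (i + 1)) =
        tw t e x (fun j => a (j + 1)) (fun j => s (j + 1))) ?_ ?_ ?_ ?_ x
  · intro a s
    rw [map_one, hA.one, hA.one]
  · intro i a s
    rw [sh_σ, hA.σ_apply, hA.σ_apply]
    funext j
    show (if j + 1 = i + 1 then _ else if j + 1 = i + 1 + 1 then _ else s (j + 1)) =
      (if j = i then _ else if j = i + 1 then _ else s (j + 1))
    by_cases h1 : j = i
    · rw [if_pos (by omega), if_pos h1]
    · rw [if_neg (by omega), if_neg h1]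
      by_cases h2 : j = i + 1
      · rw [if_pos (by omega), if_pos h2]
      · rw [if_neg (by omega), if_neg h2]
  · intro x y h1 h2 a s
    rw [map_mul, hA.mul, h1, h2 a s, hA.mul]
    congr 1
    funext j
    exact hDA.sh1 _ y a j
  · intro x h1 a s
    have h2 := h1 (dih _ (sh x)⁻¹ a) (tw t e (sh x)⁻¹ a s)
    rw [tw_inv t e hA] at h2
    rw [map_inv, h2]
    have h3 : (fun j => a (j + 1)) = dih _ x (fun j => dih (ZMod m) (sh x)⁻¹ a (j + 1)) := by
      funext j
      rw [← hDA.sh1, dih_inv]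
    have h4 := tw_inv' t e hA x (fun j => dih (ZMod m) (sh x)⁻¹ a (j + 1))
      (fun j => tw t e (sh x)⁻¹ a s (j + 1))
    rw [← h3] at h4
    exact h4.symm

theorem TWB_thm (hA : TwA) (hDA : DihA) (hDB : DihB) : TwB where
  loc1 R _ m t e N x hx := loc1 hA R m t e N x hx
  loc2 R _ m t e N x hx := loc2 hA hDB R m t e N x hx
  sum R _ m t e N x hx := sum' hA R m t e N x hx
  nat R R' _ _ f m t t' e e' ht he x := nat' hA R R' f m t t' e e' ht he x
  sh0 R _ m t e x := sh0 hA R m t e x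
  sh1 R _ m t e x a s i := congrFun (sh1 hA hDA R m t e x a s) i

end Pool.Agent.H33.SG
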